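import Pool.Agent.MP_9b8acd_an.Space

set_option autoImplicit false

/-- A real Banach space with a normalized almost-greedy Markushevich basis whose partial sum
projections are unbounded in every ordering. -/
theorem Pool.Agent.Results.MP_9b8acd_an.NormalizedCounterexample.result :
    ∃ (X : Type) (_ : NormedAddCommGroup X) (_ : NormedSpace ℝ X) (_ : CompleteSpace X)
      (e : ℕ → X) (e' : ℕ → X →L[ℝ] ℝ),
      (∀ i j : ℕ, e' i (e j) = if i = j then 1 else 0) ∧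
      (∀ i : ℕ, ‖e i‖ = 1 ∧ ‖e' i‖ = 1) ∧
      Dense ((Submodule.span ℝ (Set.range e) : Submodule ℝ X) : Set X) ∧
      (∀ x : X, (∀ i : ℕ, e' i x = 0) → x = 0) ∧
      (∃ C : ℝ, ∀ (x : X) (A B : Finset ℕ),
        (∀ i ∈ A, ∀ j : ℕ, j ∉ A → |e' j x| ≤ |e' i x|) → B.card ≤ A.card →
        ‖x - ∑ i ∈ A, e' i x • e i‖ ≤ C * ‖x - ∑ i ∈ B, e' i x • e i‖) ∧
      ∀ (π : Equiv.Perm ℕ) (K : ℝ), ∃ (x : X) (n : ℕ),
        K * ‖x‖ < ‖∑ k ∈ Finset.range n, e' (π k) x • e (π k)‖ :=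
  ⟨Pool.Agent.MP_9b8acd_an.XS, inferInstance, inferInstance, inferInstance,
    Pool.Agent.MP_9b8acd_an.e, Pool.Agent.MP_9b8acd_an.e', Pool.Agent.MP_9b8acd_an.biorth,
    fun i => ⟨Pool.Agent.MP_9b8acd_an.norm_e i, Pool.Agent.MP_9b8acd_an.norm_e' i⟩,
    Pool.Agent.MP_9b8acd_an.dense_span, Pool.Agent.MP_9b8acd_an.total,
    ⟨14, Pool.Agent.MP_9b8acd_an.almost_greedy⟩, Pool.Agent.MP_9b8acd_an.unbounded_partial_sums⟩
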